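import Pool.Agent.J4H47.GC.Low

/-!
# Project GC (helper47), piece KP: the rank of the intersection form on a square
-/

set_option autoImplicit false

open CategoryTheory AlgebraicGeometry Finset Module

universe u v

namespace Pool.Agent.J4H60.GC

open Pool.Agent.H914 VarClass Obj WeilCohomology Pool.Agent.H447 Pool.Agent.Y163
  Pool.Agent.W534 Pool.Agent.J4H47.GC

/-- The rank of the intersection form on the square of `Y` in the codimensions `dim Y + r` and
`dim Y - r` is the rank of the trace pairing of the operators of the degrees `r` and `-r`. -/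
theorem kRank_eq {k : Type u} [Field k] {𝒱 : VarClass k} {ops : CycleOps 𝒱}
    (W : WeilCohomology.{u, v} ops) (Y : 𝒱.Obj) (r : ℤ) (j l : ℕ) (hj : (j : ℤ) = Y.dim + r)
    (hl : (l : ℤ) = Y.dim - r) (hpar : par (W.isInternal Y) ∈ KOp W Y Y 0) :
    kRank W (Y.prod Y) j l = mu (KOp W Y Y r) (KOp W Y Y (-r)) 1 1 := by
  have hP : ∀ c ∈ spanCycles W (Y.prod Y) j, W.corr c ∈ KOp W Y Y r := by
    intro c hc
    rw [mem_KOp_iff]
    exact ⟨c, by rw [← hj]; exact hc, rfl⟩
  have hQ : ∀ c ∈ spanCycles W (Y.prod Y) l,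
      W.corr (W.map (swap Y Y) c) ∘ₗ par (W.isInternal Y) ∈ KOp W Y Y (-r) := by
    intro c hc
    refine KOp.cast (KOp.comp (d := 0) (e := -r) ?_ hpar) (by ring)
    rw [mem_KOp_iff]
    refine ⟨W.map (swap Y Y) c, ?_, rfl⟩
    have := map_span (swap Y Y) hc
    rwa [show ((l : ℕ) : ℤ) = Y.dim + -r by rw [hl]; ring] at this
  let eP : spanCycles W (Y.prod Y) j →ₗ[W.K] KOp W Y Y r :=
    { toFun := fun c => ⟨W.corr (c : W.H _), hP _ c.2⟩
      map_add' := fun a b => Subtype.ext (corr_add W _ _)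
      map_smul' := fun a b => Subtype.ext (corr_smul W _ _) }
  let eQ : spanCycles W (Y.prod Y) l →ₗ[W.K] KOp W Y Y (-r) :=
    { toFun := fun c => ⟨W.corr (W.map (swap Y Y) (c : W.H _)) ∘ₗ par (W.isInternal Y),
        hQ _ c.2⟩
      map_add' := fun a b => Subtype.ext (by
        change W.corr (W.map (swap Y Y) ((a : W.H _) + (b : W.H _))) ∘ₗ par (W.isInternal Y) = _
        rw [map_add, corr_add, LinearMap.add_comp]; rfl)
      map_smul' := fun a b => Subtype.ext (by
        change W.corr (W.map (swap Y Y) (a • (b : W.H _))) ∘ₗ par (W.isInternal Y) = _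
        rw [map_smul, corr_smul, LinearMap.smul_comp]; rfl) }
  have hePs : Function.Surjective eP := by
    rintro ⟨x, hx⟩
    obtain ⟨γ, hγ, rfl⟩ := mem_KOp_iff.1 hx
    rw [← hj] at hγ
    exact ⟨⟨γ, hγ⟩, rfl⟩
  have heQs : Function.Surjective eQ := by
    rintro ⟨y, hy⟩
    have hy' : y ∘ₗ par (W.isInternal Y) ∈ KOp W Y Y (-r) :=
      KOp.cast (KOp.comp hy hpar) (by ring)
    obtain ⟨γ, hγ, hγ2⟩ := mem_KOp_iff.1 hy'
    have hγ' : W.map (swap Y Y) γ ∈ spanCycles W (Y.prod Y) l := by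
      have := map_span (swap Y Y) hγ
      rwa [show (Y.dim : ℤ) + -r = ((l : ℕ) : ℤ) by rw [hl]; ring] at this
    refine ⟨⟨_, hγ'⟩, Subtype.ext ?_⟩
    change W.corr (W.map (swap Y Y) (W.map (swap Y Y) γ)) ∘ₗ par (W.isInternal Y) = y
    rw [map_swap_swap', hγ2, LinearMap.comp_assoc]
    have h1 : par (W.isInternal Y) ∘ₗ par (W.isInternal Y) = LinearMap.id := par_mul_self
    rw [h1, LinearMap.comp_id]
  have key : form W (Y.prod Y) j l 1 =
      eQ.dualMap ∘ₗ bt (KOp W Y Y r) (KOp W Y Y (-r)) 1 1 ∘ₗ eP := by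
    apply LinearMap.ext
    intro c
    apply LinearMap.ext
    intro d
    have e1 : (eQ.dualMap ∘ₗ bt (KOp W Y Y r) (KOp W Y Y (-r)) 1 1 ∘ₗ eP) c d =
        LinearMap.trace W.K (W.H Y) ((W.corr (W.map (swap Y Y) (d : W.H _)) ∘ₗ
          par (W.isInternal Y)) ∘ₗ W.corr (c : W.H _)) := rfl
    rw [e1, form_apply, Module.End.one_apply, tr_mul_eq_trace' (span_gr c.2)]
    have e2 : par (W.isInternal Y) ∘ₗ W.corr (c : W.H _) ∘ₗ
        W.corr (W.map (swap Y Y) (d : W.H _)) =
        (par (W.isInternal Y) ∘ₗ W.corr (c : W.H _)) ∘ₗ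
        W.corr (W.map (swap Y Y) (d : W.H _)) := rfl
    rw [e2, LinearMap.trace_comp_comm']
    rfl
  rw [← rk_one, rk, mu, key]
  have h1 : LinearMap.range (eQ.dualMap ∘ₗ bt (KOp W Y Y r) (KOp W Y Y (-r)) 1 1 ∘ₗ eP) =
      (LinearMap.range (bt (KOp W Y Y r) (KOp W Y Y (-r)) 1 1)).map eQ.dualMap := by
    rw [← LinearMap.comp_assoc, LinearMap.range_comp_of_range_eq_top _
      (LinearMap.range_eq_top.2 hePs), LinearMap.range_comp]
  rw [h1]
  have hinj : Function.Injective eQ.dualMap :=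
    LinearMap.dualMap_injective_of_surjective heQs
  exact (LinearEquiv.finrank_eq (Submodule.equivMapOfInjective _ hinj _)).symm

theorem t_KP : S_KP.{u, v} :=
  fun W Y r j l hj hl hpar => (kRank_eq W Y r j l hj hl hpar).ge

end Pool.Agent.J4H60.GC
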